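import Pool.Agent.H458.AR.Fld
import Pool.Graph.R_pool_sql_team_seeded_63374d34.N50.PQ.Maj

/-!
# Project AR (helper458), part RLP: the condition at the real place (helper618)
-/

set_option autoImplicit false
set_option linter.all false

open Polynomial
open scoped Classical

namespace Pool.Agent.H618.AR458

open Pool.Agent.N922.PQ
open Pool.Agent.N50.PQ.Maj (co_eq ev ev_ne norm_co real_root)

/-- A real polynomial which is positive at `e` is a square modulo `(X - e) Q`, `Q` the real quadratic polynomial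
with the non-real zero `z`. -/
theorem exists_sq (e : ℝ) (z : ℂ) (hz : z.im ≠ 0) (P : ℝ[X]) (hP : 0 < P.eval e) :
    ∃ g : ℝ[X], (X - C e) * (X ^ 2 - C (2 * z.re) * X + C (‖z‖ ^ 2)) ∣ P - g ^ 2 := by
  obtain ⟨u, hu⟩ : ∃ u : ℝ, u ^ 2 = P.eval e := ⟨Real.sqrt (P.eval e), Real.sq_sqrt hP.le⟩
  obtain ⟨w, hw⟩ : ∃ w : ℂ, w ^ 2 = aeval z P := IsAlgClosed.exists_pow_nat_eq _ (by norm_num)
  have hze : z - (e : ℂ) ≠ 0 := by
    intro h0
    apply hz
    have := congrArg Complex.im h0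
    simpa using this
  obtain ⟨m, hm⟩ : ∃ m : ℂ, (z - (e : ℂ)) * m = w - u := ⟨(w - u) / (z - e), mul_div_cancel₀ _ hze⟩
  obtain ⟨l1, hl1⟩ : ∃ l1 : ℝ, l1 * z.im = m.im := ⟨m.im / z.im, div_mul_cancel₀ _ hz⟩
  obtain ⟨l0, hl0⟩ : ∃ l0 : ℝ, l0 + l1 * z.re = m.re := ⟨m.re - l1 * z.re, by ring⟩
  have hlm : (l0 : ℂ) + (l1 : ℂ) * z = m := by
    apply Complex.ext
    · simp [← hl0]
    · simp [← hl1]
  obtain ⟨g, hg⟩ : ∃ g : ℝ[X], g = C u + (X - C e) * (C l0 + C l1 * X) := ⟨_, rfl⟩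
  have hge : g.eval e = u := by rw [hg]; simp
  have hgz : aeval z g = w := by
    have h1 : aeval z g = (u : ℂ) + (z - (e : ℂ)) * ((l0 : ℂ) + (l1 : ℂ) * z) := by
      rw [hg]
      simp
    rw [h1, hlm, hm]
    ring
  refine ⟨g, IsCoprime.mul_dvd ?_ ?_ ?_⟩
  · rw [(irreducible_X_sub_C e).coprime_iff_not_dvd, dvd_iff_isRoot]
    intro h0
    have h1 : e ^ 2 - 2 * z.re * e + ‖z‖ ^ 2 = 0 := by
      have := h0
      simpa [IsRoot] using this
    rw [← Complex.normSq_eq_norm_sq, Complex.normSq_apply] at h1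
    have h2 : 0 < z.im * z.im := mul_self_pos.2 hz
    nlinarith [sq_nonneg (e - z.re)]
  · rw [dvd_iff_isRoot]
    show eval e (P - g ^ 2) = 0
    rw [eval_sub, eval_pow, hge, hu, sub_self]
  · apply quadratic_dvd_of_aeval_eq_zero_im_ne_zero _ _ hz
    rw [map_sub, map_pow, hgz, hw, sub_self]

variable {L : Type} [Field L] [NumberField L] {a b : ℤ} {θ : L}

/-- The value of a polynomial at a zero of the cubic polynomial. -/
theorem aeval_eq (h : IsCub a b θ) (P : ℚ[X]) {F : Type} [Field F] [CharZero F] [Algebra ℚ F] {z : F}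
    (hz : z ^ 3 + (a : F) * z + (b : F) = 0) : aeval z P = ev h z (aeval θ P) := by
  obtain ⟨x, hx⟩ : ∃ x : L, x = aeval θ P := ⟨_, rfl⟩
  obtain ⟨R, hR⟩ : ∃ R : ℚ[X], R = C (h.co 0 x) + C (h.co 1 x) * X + C (h.co 2 x) * X ^ 2 := ⟨_, rfl⟩
  have h1 : aeval θ R = x := by
    rw [hR]
    simp only [map_add, map_mul, map_pow, aeval_X, aeval_C, eq_ratCast]
    exact (co_eq h x).symm
  have h2 : ff ℚ a b ∣ P - R := by
    rw [← h.minpoly_eq]
    apply minpoly.dvd
    rw [map_sub, h1, hx, sub_self]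
  obtain ⟨k, hk⟩ := h2
  have h3 : aeval z (ff ℚ a b) = 0 := by
    simp only [ff, map_add, map_mul, map_pow, aeval_X, aeval_C]
    simpa using hz
  have h4 : aeval z P = aeval z R := by
    have : aeval z (P - R) = 0 := by rw [hk, map_mul, h3, zero_mul]
    rwa [map_sub, sub_eq_zero] at this
  rw [h4, ← hx, hR]
  unfold ev
  simp only [map_add, map_mul, map_pow, aeval_X, aeval_C, eq_ratCast]

theorem rlp : Pool.Agent.H458.AR.S_RLP := by
  intro L _ _ a b θ h ha α hα hN P hP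
  left
  obtain ⟨t, ht, -⟩ := real_root (X := b.natAbs) ha (by
    rw [Int.abs_eq_natAbs]
    norm_cast
    exact Nat.le_self_pow (by norm_num) _)
  have ha' : (0 : ℝ) < a := by exact_mod_cast ha
  obtain ⟨p, hp⟩ : ∃ p : ℝ, p = -t / 2 := ⟨_, rfl⟩
  obtain ⟨q, hq⟩ : ∃ q : ℝ, q = Real.sqrt (a + 3 * t ^ 2 / 4) := ⟨_, rfl⟩
  have hq2 : q ^ 2 = a + 3 * t ^ 2 / 4 := by
    rw [hq, Real.sq_sqrt (by positivity)]
  have hq0 : 0 < q := by
    rw [hq]
    exact Real.sqrt_pos.2 (by positivity)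
  obtain ⟨z, hz⟩ : ∃ z : ℂ, z = ⟨p, q⟩ := ⟨_, rfl⟩
  have hzre : z.re = p := by rw [hz]
  have hzim : z.im = q := by rw [hz]
  have hz2 : z ^ 2 + (t : ℂ) * z + ((t : ℂ) ^ 2 + (a : ℂ)) = 0 := by
    apply Complex.ext
    · simp only [pow_two, Complex.add_re, Complex.mul_re, Complex.ofReal_re, Complex.ofReal_im,
        Complex.intCast_re, Complex.zero_re, hzre, hzim]
      rw [hp]
      nlinarith
    · simp only [pow_two, Complex.add_im, Complex.mul_im, Complex.ofReal_re, Complex.ofReal_im,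
        Complex.intCast_im, Complex.zero_im, hzre, hzim]
      rw [hp]
      ring
  have htC : (t : ℂ) ^ 3 + (a : ℂ) * (t : ℂ) + (b : ℂ) = 0 := by exact_mod_cast ht
  have hz3 : z ^ 3 + (a : ℂ) * z + (b : ℂ) = 0 := by
    linear_combination (z - t) * hz2 + htC
  have hzn2 : ‖z‖ ^ 2 = t ^ 2 + a := by
    rw [← Complex.normSq_eq_norm_sq, Complex.normSq_apply, hzre, hzim, hp]
    nlinarith
  have hnorm : ((Algebra.norm ℚ α : ℚ) : ℝ) = ev h t α * Complex.normSq (ev h z α) := by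
    rw [norm_co h, Complex.normSq_apply]
    unfold ev
    simp only [Complex.mul_re, Complex.mul_im, Complex.add_re, Complex.add_im, Complex.ratCast_re,
      Complex.ratCast_im, pow_two, hzre, hzim]
    push_cast
    have hb : (b : ℝ) = -(t ^ 3 + a * t) := by linarith
    have ha2 : (a : ℝ) = q ^ 2 - 3 * t ^ 2 / 4 := by linarith
    rw [hb, ha2, hp]
    ring
  have hN0 : 0 < Algebra.norm ℚ α :=
    lt_of_le_of_ne hN.nonneg (Ne.symm (Algebra.norm_ne_zero_iff.2 hα))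
  have hpos : 0 < ev h t α := by
    have h1 : (0 : ℝ) < ((Algebra.norm ℚ α : ℚ) : ℝ) := by exact_mod_cast hN0
    rw [hnorm] at h1
    have h2 : 0 ≤ Complex.normSq (ev h z α) := Complex.normSq_nonneg _
    by_contra hcon
    push Not at hcon
    have h3 := mul_nonpos_of_nonpos_of_nonneg hcon h2
    linarith
  have hPt : (P.map (algebraMap ℚ ℝ)).eval t = ev h t α := by
    rw [eval_map_algebraMap, aeval_eq h P ht, hP]
  have hff : ff ℝ a b = (X - C t) * (X ^ 2 - C (2 * z.re) * X + C (‖z‖ ^ 2)) := by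
    rw [hzn2, hzre, hp]
    have hb : (b : ℝ) = -(t ^ 3 + a * t) := by linarith
    have h2 : (C (2 * (-t / 2)) : ℝ[X]) = - C t := by
      rw [← C_neg]
      congr 1
      ring
    unfold ff
    rw [hb, h2]
    simp only [C_neg, C_add, C_mul, C_pow]
    ring
  rw [hff]
  exact exists_sq t z (by rw [hzim]; exact hq0.ne') _ (by rw [hPt]; exact hpos)

end Pool.Agent.H618.AR458
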